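import Pool.Agent.H65.CRG.TL

/-!
Row CG: the argument of `x + i y` between the zeros of `x`.
-/

set_option autoImplicit false

open MeasureTheory Set Filter Topology intervalIntegral

namespace Pool.Agent.H97.CRG

open Pool.Agent.H65.CRG

private lemma deriv_id (X X1 Y Y1 K : ℝ) (hX : X ≠ 0)
    (h : K * (X ^ 2 + Y ^ 2) = X * Y1 - Y * X1) :
    1 / (1 + (Y / X) ^ 2) * ((Y1 * X - Y * X1) / X ^ 2) = K := by
  have h1 : 0 < X ^ 2 := by positivity
  have h2 : 0 < X ^ 2 + Y ^ 2 := by positivity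
  have h3 : 1 + (Y / X) ^ 2 = (X ^ 2 + Y ^ 2) / X ^ 2 := by
    field_simp
  rw [h3]
  have h4 : K = (X * Y1 - Y * X1) / (X ^ 2 + Y ^ 2) := by
    rw [eq_div_iff h2.ne']
    exact h
  rw [h4]
  field_simp

private lemma base (x x₁ y y₁ k : ℝ → ℝ) (a b : ℝ) (hab : a < b)
    (hx : ∀ t, HasDerivAt x (x₁ t) t) (hy : ∀ t, HasDerivAt y (y₁ t) t)
    (hk : ContinuousOn k (Icc a b))
    (hkx : ∀ t ∈ Icc a b, x t ≠ 0 → k t * (x t ^ 2 + y t ^ 2) =
      x t * y₁ t - y t * x₁ t)
    (hz : ∀ t ∈ Ioo a b, x t ≠ 0) : ∫ t in a..b, k t ≤ Real.pi := by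
  set F : ℝ → ℝ := fun t => ∫ s in a..t, k s with hF
  have hint : IntegrableOn k (uIcc a b) := by
    rw [uIcc_of_le hab.le]
    exact hk.integrableOn_Icc
  have hFc : ContinuousOn F (Icc a b) := by
    have := continuousOn_primitive_interval hint
    rw [uIcc_of_le hab.le] at this
    exact this
  have hki : ∀ u v, u ∈ Icc a b → v ∈ Icc a b → IntervalIntegrable k volume u v := by
    intro u v hu hv
    apply ContinuousOn.intervalIntegrable
    apply hk.mono
    intro t ht
    rw [mem_uIcc] at ht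
    rcases ht with ht | ht
    · exact ⟨hu.1.trans ht.1, ht.2.trans hv.2⟩
    · exact ⟨hv.1.trans ht.1, ht.2.trans hu.2⟩
  have hsub : ∀ u v, u ∈ Icc a b → v ∈ Icc a b → F v - F u = ∫ t in u..v, k t := by
    intro u v hu hv
    have ha : a ∈ Icc a b := ⟨le_refl _, hab.le⟩
    have := integral_add_adjacent_intervals (hki a u ha hu) (hki u v hu hv)
    simp only [hF]
    linarith
  have key : ∀ u ∈ Ioo a b, ∀ v ∈ Ioo u b, F v - F u ≤ Real.pi := by
    intro u hu v hv
    have hu' : u ∈ Icc a b := ⟨hu.1.le, hu.2.le⟩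
    have hv' : v ∈ Icc a b := ⟨hu.1.le.trans hv.1.le, hv.2.le⟩
    rw [hsub u v hu' hv']
    have hd : ∀ t ∈ uIcc u v, HasDerivAt (fun t => Real.arctan (y t / x t)) (k t) t := by
      intro t ht
      rw [uIcc_of_le hv.1.le] at ht
      have ht1 : t ∈ Ioo a b := ⟨lt_of_lt_of_le hu.1 ht.1, lt_of_le_of_lt ht.2 hv.2⟩
      have ht2 : t ∈ Icc a b := ⟨ht1.1.le, ht1.2.le⟩
      have h0 : x t ≠ 0 := hz t ht1
      have h1 : HasDerivAt (fun t => y t / x t)
          ((y₁ t * x t - y t * x₁ t) / x t ^ 2) t :=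
        (hy t).div (hx t) h0
      have h2 := h1.arctan
      have h3 := deriv_id (x t) (x₁ t) (y t) (y₁ t) (k t) h0 (hkx t ht2 h0)
      rw [← h3]
      exact h2
    rw [integral_eq_sub_of_hasDerivAt hd (hki u v hu' hv')]
    have h1 := Real.arctan_lt_pi_div_two (y v / x v)
    have h2 := Real.neg_pi_div_two_lt_arctan (y u / x u)
    linarith
  have key2 : ∀ u ∈ Ioo a b, F b - F u ≤ Real.pi := by
    intro u hu
    have hc : b ∈ closure (Ioo u b) := by
      rw [closure_Ioo hu.2.ne]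
      exact ⟨hu.2.le, le_refl _⟩
    have hcb : ContinuousWithinAt (fun v => F v - F u) (Ioo u b) b := by
      apply ContinuousWithinAt.sub _ continuousWithinAt_const
      apply (hFc b ⟨hab.le, le_refl _⟩).mono
      intro t ht
      exact ⟨hu.1.le.trans ht.1.le, ht.2.le⟩
    exact ContinuousWithinAt.closure_le hc hcb continuousWithinAt_const (key u hu)
  have key3 : F b - F a ≤ Real.pi := by
    have hc : a ∈ closure (Ioo a b) := by
      rw [closure_Ioo hab.ne]
      exact ⟨le_refl _, hab.le⟩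
    have hcb : ContinuousWithinAt (fun u => F b - F u) (Ioo a b) a := by
      apply ContinuousWithinAt.sub continuousWithinAt_const
      apply (hFc a ⟨le_refl _, hab.le⟩).mono
      intro t ht
      exact ⟨ht.1.le, ht.2.le⟩
    exact ContinuousWithinAt.closure_le hc hcb continuousWithinAt_const key2
  have h4 := hsub a b ⟨le_refl _, hab.le⟩ ⟨hab.le, le_refl _⟩
  linarith

private lemma step (x x₁ y y₁ k : ℝ → ℝ)
    (hx : ∀ t, HasDerivAt x (x₁ t) t) (hy : ∀ t, HasDerivAt y (y₁ t) t) (n : ℕ) :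
    ∀ (a b : ℝ), a < b → {t ∈ Icc a b | x t = 0}.Finite →
      ContinuousOn k (Icc a b) →
      (∀ t ∈ Icc a b, x t ≠ 0 → k t * (x t ^ 2 + y t ^ 2) =
        x t * y₁ t - y t * x₁ t) → {t ∈ Ioo a b | x t = 0}.ncard = n →
      ∫ t in a..b, k t ≤ Real.pi * (n + 1) := by
  induction n using Nat.strong_induction_on with
  | _ n ih =>
    intro a b hab hfin hk hkx hn
    have hsub : {t ∈ Ioo a b | x t = 0} ⊆ {t ∈ Icc a b | x t = 0} := by
      intro t ht
      exact ⟨⟨ht.1.1.le, ht.1.2.le⟩, ht.2⟩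
    have hfin' := hfin.subset hsub
    by_cases hne : {t ∈ Ioo a b | x t = 0}.Nonempty
    · obtain ⟨c, hc, hc0⟩ := hne
      have hL : {t ∈ Icc a c | x t = 0}.Finite := by
        apply hfin.subset
        intro t ht
        exact ⟨⟨ht.1.1, ht.1.2.trans hc.2.le⟩, ht.2⟩
      have hR : {t ∈ Icc c b | x t = 0}.Finite := by
        apply hfin.subset
        intro t ht
        exact ⟨⟨hc.1.le.trans ht.1.1, ht.1.2⟩, ht.2⟩
      have hL' : {t ∈ Ioo a c | x t = 0}.Finite := by
        apply hL.subset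
        intro t ht
        exact ⟨⟨ht.1.1.le, ht.1.2.le⟩, ht.2⟩
      have hR' : {t ∈ Ioo c b | x t = 0}.Finite := by
        apply hR.subset
        intro t ht
        exact ⟨⟨ht.1.1.le, ht.1.2.le⟩, ht.2⟩
      have hdec : {t ∈ Ioo a b | x t = 0} =
          insert c ({t ∈ Ioo a c | x t = 0} ∪ {t ∈ Ioo c b | x t = 0}) := by
        ext t
        simp only [mem_ofPred_eq, mem_insert_iff, mem_union, mem_Ioo]
        constructor
        · rintro ⟨⟨h1, h2⟩, h3⟩
          rcases lt_trichotomy t c with h | h | h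
          · exact Or.inr (Or.inl ⟨⟨h1, h⟩, h3⟩)
          · exact Or.inl h
          · exact Or.inr (Or.inr ⟨⟨h, h2⟩, h3⟩)
        · rintro (h | ⟨⟨h1, h2⟩, h3⟩ | ⟨⟨h1, h2⟩, h3⟩)
          · rw [h]
            exact ⟨hc, hc0⟩
          · exact ⟨⟨h1, h2.trans hc.2⟩, h3⟩
          · exact ⟨⟨hc.1.trans h1, h2⟩, h3⟩
      have hcard : n = {t ∈ Ioo a c | x t = 0}.ncard + {t ∈ Ioo c b | x t = 0}.ncard + 1 := by
        rw [← hn, hdec, ncard_insert_of_notMem _ (hL'.union hR'),
          ncard_union_eq _ hL' hR']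
        · rw [disjoint_left]
          intro t ht1 ht2
          exact lt_asymm ht1.1.2 ht2.1.1
        · rintro (h | h)
          · exact lt_irrefl _ h.1.2
          · exact lt_irrefl _ h.1.1
      have h1 := ih ({t ∈ Ioo a c | x t = 0}.ncard) (by omega) a c hc.1 hL
        (hk.mono (Icc_subset_Icc_right hc.2.le))
        (fun t ht => hkx t ⟨ht.1, ht.2.trans hc.2.le⟩) rfl
      have h2 := ih ({t ∈ Ioo c b | x t = 0}.ncard) (by omega) c b hc.2 hR
        (hk.mono (Icc_subset_Icc_left hc.1.le))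
        (fun t ht => hkx t ⟨hc.1.le.trans ht.1, ht.2⟩) rfl
      have hi1 : IntervalIntegrable k volume a c := by
        apply ContinuousOn.intervalIntegrable
        rw [uIcc_of_le hc.1.le]
        exact hk.mono (Icc_subset_Icc_right hc.2.le)
      have hi2 : IntervalIntegrable k volume c b := by
        apply ContinuousOn.intervalIntegrable
        rw [uIcc_of_le hc.2.le]
        exact hk.mono (Icc_subset_Icc_left hc.1.le)
      rw [← integral_add_adjacent_intervals hi1 hi2]
      have h3 : (n : ℝ) = ({t ∈ Ioo a c | x t = 0}.ncard : ℝ) +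
          ({t ∈ Ioo c b | x t = 0}.ncard : ℝ) + 1 := by
        exact_mod_cast hcard
      rw [h3]
      nlinarith [h1, h2]
    · rw [not_nonempty_iff_eq_empty] at hne
      have h0 : n = 0 := by rw [← hn, hne, ncard_empty]
      subst h0
      have := base x x₁ y y₁ k a b hab hx hy hk hkx (by
        intro t ht h
        have : t ∈ {t ∈ Ioo a b | x t = 0} := ⟨ht, h⟩
        rw [hne] at this
        exact this)
      simpa using this

theorem pf_CG : T_CG := by
  intro x x₁ y y₁ k a b hab hx hy _ _ hfin hk hkx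
  exact step x x₁ y y₁ k hx hy _ a b hab hfin hk hkx rfl

end Pool.Agent.H97.CRG
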